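import Pool.Agent.Helper40.WD.Stmts

set_option autoImplicit false

namespace Pool.Agent.Helper64.WD

open Filter Topology Pool.Agent.Helper40.WD

theorem mm_pos (k : ℕ) : 0 < mm k := by
  induction k with
  | zero => exact Nat.one_pos
  | succ k ih => show 0 < 3 * mm k; omega

/-- the points of the levels up to `n` -/
noncomputable def pts (n : ℕ) : Finset Gi :=
  (Finset.range (n + 1)).sigma (fun k => (Finset.univ : Finset (Fin (4 * mm k))))

theorem mem_pts (n : ℕ) (p : Gi) : p ∈ pts n ↔ p.1 ≤ n := by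
  simp [pts, Nat.lt_succ_iff]

theorem st_LIM : ST_LIM := by
  intro D φ hφ
  obtain ⟨h1, h2, h3, h4⟩ := hφ
  have hex : ∀ n : ℕ, ∃ c : Gi, c.1 ≤ n ∧ ∀ p : Gi, p.1 ≤ n →
      |φ (n + 1) p.1 p.2 - φ n p.1 p.2| ≤ |φ (n + 1) c.1 c.2 - φ n c.1 c.2| := by
    intro n
    have hne : (pts n).Nonempty :=
      ⟨⟨0, ⟨0, by have := mm_pos 0; omega⟩⟩, (mem_pts n _).2 (Nat.zero_le n)⟩
    obtain ⟨c, hc, hmax⟩ := Finset.exists_max_image (pts n)
      (fun p : Gi => |φ (n + 1) p.1 p.2 - φ n p.1 p.2|) hne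
    exact ⟨c, (mem_pts n c).1 hc, fun p hp => hmax p ((mem_pts n p).2 hp)⟩
  choose c hc hmax using hex
  set a : ℕ → ℝ := fun n => |φ (n + 1) (c n).1 (c n).2 - φ n (c n).1 (c n).2| with ha
  have ha0 : ∀ n, 0 ≤ a n := fun n => abs_nonneg _
  have hs : Summable a := by
    refine summable_of_sum_range_le (c := 1) ha0 (fun M => ?_)
    exact h4 c hc M
  have hr : Tendsto (fun i => ∑' k, a (k + i)) atTop (𝓝 0) := tendsto_sum_nat_add a
  have hstep : ∀ (p : Gi) (n : ℕ), dist (φ (n + p.1) p.1 p.2) (φ (n.succ + p.1) p.1 p.2) ≤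
      a (n + p.1) := by
    intro p n
    have e : n.succ + p.1 = (n + p.1) + 1 := by omega
    rw [e, dist_comm, Real.dist_eq]
    exact hmax (n + p.1) p (by omega)
  have hsum : ∀ p : Gi, Summable (fun n => a (n + p.1)) := fun p =>
    (summable_nat_add_iff p.1).2 hs
  have hcau : ∀ p : Gi, ∃ x : ℝ, Tendsto (fun n => φ (n + p.1) p.1 p.2) atTop (𝓝 x) := by
    intro p
    exact cauchySeq_tendsto_of_complete
      (cauchySeq_of_dist_le_of_summable (fun n => a (n + p.1)) (hstep p) (hsum p))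
  choose w hw using hcau
  have hlim : ∀ p : Gi, Tendsto (fun n => φ n p.1 p.2) atTop (𝓝 (w p)) := fun p =>
    (tendsto_add_atTop_iff_nat (f := fun n => φ n p.1 p.2) p.1).1 (hw p)
  have hdist : ∀ (p : Gi) (n : ℕ), p.1 ≤ n → |φ n p.1 p.2 - w p| ≤ ∑' k, a (k + n) := by
    intro p n hn
    have h := dist_le_tsum_of_dist_le_of_tendsto (fun n => a (n + p.1)) (hstep p) (hsum p)
      (hw p) (n - p.1)
    have e : n - p.1 + p.1 = n := by omega
    rw [e, Real.dist_eq] at h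
    refine h.trans (le_of_eq ?_)
    congr 1
    funext m
    congr 1
    omega
  have hw1 : ∀ p, |w p| ≤ 1 := by
    intro p
    exact le_of_tendsto (hlim p).abs (Eventually.of_forall fun n => h1 n p.1 p.2)
  let W : LI := ⟨w, by
    refine memℓp_infty ⟨1, ?_⟩
    rintro _ ⟨p, rfl⟩
    simpa using hw1 p⟩
  have hW : W ∈ Wd D := by
    intro k j
    have e1 : Tendsto (fun n => 3 * ∑ g, D.T k j g * φ n k g) atTop
        (𝓝 (3 * ∑ g, D.T k j g * w ⟨k, g⟩)) :=
      (tendsto_finset_sum _ fun g _ => (hlim ⟨k, g⟩).const_mul (D.T k j g)).const_mul 3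
    have e2 : Tendsto (fun n => ∑ g, D.S (k + 1) j g * φ n (k + 1) g) atTop
        (𝓝 (∑ g, D.S (k + 1) j g * w ⟨k + 1, g⟩)) :=
      tendsto_finset_sum _ fun g _ => (hlim ⟨k + 1, g⟩).const_mul (D.S (k + 1) j g)
    refine tendsto_nhds_unique_of_eventuallyEq e1 e2 ?_
    filter_upwards [eventually_ge_atTop (k + 1)] with n hn
    exact h3 n k j hn
  refine ⟨⟨W, hW⟩, ?_, ?_⟩
  · show ‖W‖ ≤ 1
    refine lp.norm_le_of_forall_le zero_le_one (fun p => ?_)
    simpa using hw1 p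
  · intro ε hε
    have := (hr.eventually (gt_mem_nhds hε))
    obtain ⟨N, hN⟩ := eventually_atTop.1 this
    refine ⟨N, fun n hn k hk g => ?_⟩
    exact (hdist ⟨k, g⟩ n hk).trans (hN n hn).le

end Pool.Agent.Helper64.WD
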